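import Pool.Agent.N928.EA.Stm

set_option autoImplicit false

/-!
# Project EA: constants
-/

namespace Pool.Agent.N322.EA

open Pool.Agent.N928.EA

theorem t_NUM : St_NUM := by
  intro D k hD hk
  obtain ⟨d, hd⟩ : ∃ d : ℝ, d = D := ⟨_, rfl⟩
  have hd1 : 1 ≤ d := by rw [hd]; exact_mod_cast hD
  rw [← hd] at hk ⊢
  obtain ⟨L, hL⟩ : ∃ L : ℝ, L = Real.log (d + 1) := ⟨_, rfl⟩
  have hL0 : 69 / 100 ≤ L := by
    have h1 : Real.log 2 ≤ L := by
      rw [hL]
      exact Real.log_le_log (by norm_num) (by linarith)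
    have h2 := Real.log_two_gt_d9
    linarith
  rw [← hL] at hk
  have hdL : 69 / 100 ≤ d * L := by nlinarith
  have hs := Real.sq_sqrt (show 0 ≤ d * L by linarith)
  have hs0 := Real.sqrt_nonneg (d * L)
  have hk0 : (0 : ℝ) ≤ k := Nat.cast_nonneg k
  have hk2 : 400 * (d * L) ≤ (k : ℝ) ^ 2 := by
    have h1 := mul_self_le_mul_self (by positivity) hk
    nlinarith
  have hk16 : (16 : ℝ) < k := by
    by_contra hcon
    push Not at hcon
    nlinarith
  have hk17 : (17 : ℝ) ≤ k := by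
    have h1 : 16 < k := by exact_mod_cast hk16
    have h2 : 17 ≤ k := h1
    exact_mod_cast h2
  obtain ⟨z, hz⟩ : ∃ z : ℝ, z = (k : ℝ) ^ 2 / d := ⟨_, rfl⟩
  have hzd : z * d = (k : ℝ) ^ 2 := by
    rw [hz]
    field_simp
  have hzL : 400 * L ≤ z := by
    rw [hz, le_div_iff₀ (by linarith)]
    linarith
  have hz276 : 276 ≤ z := by linarith
  refine ⟨by
    have : (2 : ℝ) ≤ k := by linarith
    exact_mod_cast this, ?_⟩
  have h1 : 385 / 1000 * z ≤ ((k : ℝ) - 2) ^ 2 / (2 * d) := by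
    rw [le_div_iff₀ (by linarith)]
    have h2 : 385 / 1000 * z * (2 * d) = 77 / 100 * (k : ℝ) ^ 2 := by
      rw [← hzd]
      ring
    rw [h2]
    nlinarith
  refine le_trans ?_ (Real.exp_le_exp.2 h1)
  have h3 : (k : ℝ) + 1 + d ≤ 3 * z * (d + 1) := by nlinarith
  have h4 : d + 1 ≤ Real.exp (z / 400) := by
    have h5 : d + 1 = Real.exp L := by
      rw [hL, Real.exp_log (by linarith)]
    rw [h5]
    exact Real.exp_le_exp.2 (by linarith)
  have h5 : z ≤ 100 * Real.exp (z / 100 - 1) := by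
    have := Real.add_one_le_exp (z / 100 - 1)
    linarith
  have h6 : (k : ℝ) + 1 + d ≤ 300 * Real.exp (z / 100 - 1 + z / 400) := by
    rw [Real.exp_add]
    have e1 := Real.exp_pos (z / 100 - 1)
    have e2 := Real.exp_pos (z / 400)
    have h7 : z * (d + 1) ≤ 100 * Real.exp (z / 100 - 1) * Real.exp (z / 400) :=
      mul_le_mul h5 h4 (by linarith) (by positivity)
    linarith
  have h7 : 3 * ((k : ℝ) + 1 + d) ^ 2 ≤ 3 * (300 * Real.exp (z / 100 - 1 + z / 400)) ^ 2 := by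
    have h8 : 0 ≤ (k : ℝ) + 1 + d := by linarith
    have h9 := pow_le_pow_left₀ h8 h6 2
    linarith
  refine h7.trans ?_
  have h8 : 3 * (300 * Real.exp (z / 100 - 1 + z / 400)) ^ 2 =
      270000 * Real.exp (z / 40 - 2) := by
    rw [mul_pow, ← Real.exp_nat_mul]
    have : ((2 : ℕ) : ℝ) * (z / 100 - 1 + z / 400) = z / 40 - 2 := by
      push_cast
      ring
    rw [this]
    ring
  rw [h8]
  have h20 : (270000 : ℝ) ≤ Real.exp 20 := by
    have e1 : Real.exp 20 = Real.exp 1 ^ 20 := by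
      rw [← Real.exp_nat_mul]
      norm_num
    have e2 : (2 : ℝ) ≤ Real.exp 1 := by
      have := Real.add_one_le_exp (1 : ℝ)
      linarith
    have e3 := pow_le_pow_left₀ (by norm_num : (0 : ℝ) ≤ 2) e2 20
    rw [e1]
    refine le_trans ?_ e3
    norm_num
  calc 270000 * Real.exp (z / 40 - 2) ≤ Real.exp 20 * Real.exp (z / 40 - 2) :=
        mul_le_mul_of_nonneg_right h20 (Real.exp_pos _).le
    _ = Real.exp (20 + (z / 40 - 2)) := (Real.exp_add _ _).symm
    _ ≤ Real.exp (385 / 1000 * z) := Real.exp_le_exp.2 (by linarith)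

end Pool.Agent.N322.EA
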